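import Pool.Agent.Helper45.CCE.Clique

set_option autoImplicit false

namespace Pool.Agent.Results.MP_6d4c99_co.CliquePartitions

/-- The edges of the multigraph with end map `ends` are partitioned into complete graphs: `blk e`
is the part of the edge `e`, and part `w` is a complete graph on the vertex set `B w`. No part has
exactly three vertices, and no two different parts with exactly two vertices share a vertex. -/
def HasCliquePartition {V E : Type} (ends : E → Sym2 V) : Prop :=
  ∃ (W : Type) (B : W → Set V) (blk : E → W),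
    (∀ (e : E) (x : V), x ∈ ends e → x ∈ B (blk e)) ∧
    (∀ (w : W) (x y : V), x ≠ y → x ∈ B w → y ∈ B w →
      ∃! e : E, blk e = w ∧ ends e = s(x, y)) ∧
    (∀ w : W, (B w).ncard ≠ 3) ∧
    (∀ (w w' : W) (x : V), x ∈ B w → x ∈ B w' → (B w).ncard = 2 → (B w').ncard = 2 → w = w')

/-- Every finite loopless multigraph with all degrees even whose edges can be partitioned into
complete graphs, none of them on three vertices and no two of them single edges with a common
vertex, has two partitions of its edges into cycles such that any cycle from the first and any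
from the second share at most one edge at each vertex. -/
theorem result :
    ∀ (V E : Type) [Fintype V] [DecidableEq V] [Fintype E] [DecidableEq E] (ends : E → Sym2 V),
      (∀ e, ¬ (ends e).IsDiag) →
      (∀ v : V, Even (Finset.univ.filter (fun e : E => v ∈ ends e)).card) →
      HasCliquePartition ends →
      ∃ C₁ C₂ : Finset (Finset E),
        (∀ S ∈ C₁, S.Nonempty ∧ (∀ v : V, Even (S.filter (fun e => v ∈ ends e)).card) ∧
            ∀ T ⊆ S, T.Nonempty → (∀ v : V, Even (T.filter (fun e => v ∈ ends e)).card) → T = S) ∧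
        (∀ e : E, ∃! S, S ∈ C₁ ∧ e ∈ S) ∧
        (∀ S ∈ C₂, S.Nonempty ∧ (∀ v : V, Even (S.filter (fun e => v ∈ ends e)).card) ∧
            ∀ T ⊆ S, T.Nonempty → (∀ v : V, Even (T.filter (fun e => v ∈ ends e)).card) → T = S) ∧
        (∀ e : E, ∃! S, S ∈ C₂ ∧ e ∈ S) ∧
        (∀ v : V, ∀ S₁ ∈ C₁, ∀ S₂ ∈ C₂,
            ((S₁ ∩ S₂).filter (fun e => v ∈ ends e)).card ≤ 1) := by
  rintro V E _ _ _ _ ends hloop hdeg ⟨W, B, blk, hB1, hB2, h3, h2⟩
  exact Pool.Agent.Helper45.CCE.cliques V E W ends hloop hdeg B blk hB1 hB2 h3 h2

end Pool.Agent.Results.MP_6d4c99_co.CliquePartitions
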